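import Mathlib
import Pool.Agent.Q60.D3.Defs

/-!
# Project D3E, JOB E2: abelian varieties of dimension one are simple
-/

set_option autoImplicit false

namespace Pool.Agent.Q261.D3E

open Module
open Pool.Agent.Q60.D3 (AV IsHom IsSimple IsCM)

/-- the periods of a basis are independent over the real numbers -/
lemma per_indep (A : AV) (z : Fin (finrank ℚ A.H) → ℝ)
    (hz : ∑ i, z i • A.per (finBasis ℚ A.H i) = 0) : z = 0 := by
  have hcard : Fintype.card (Fin (finrank ℚ A.H)) = finrank ℝ A.T := by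
    have h2 : finrank ℝ A.T = 2 * finrank ℂ A.T := finrank_real_of_complex A.T
    rw [Fintype.card_fin, h2, A.dim]
  have hspan : (⊤ : Submodule ℝ A.T) ≤
      Submodule.span ℝ (Set.range fun i => A.per (finBasis ℚ A.H i)) := by
    rw [← A.span, Submodule.span_le]
    rintro _ ⟨w, rfl⟩
    rw [← (finBasis ℚ A.H).sum_repr w, map_sum]
    refine Submodule.sum_mem _ fun i _ => ?_
    have h3 : A.per ((finBasis ℚ A.H).repr w i • finBasis ℚ A.H i) =
        (((finBasis ℚ A.H).repr w i : ℚ) : ℝ) • A.per (finBasis ℚ A.H i) :=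
      map_ratCast_smul A.per ℚ ℝ _ _
    rw [h3]
    exact Submodule.smul_mem _ _ (Submodule.subset_span ⟨i, rfl⟩)
  have hli := linearIndependent_of_top_le_span_of_card_eq_finrank hspan hcard
  rw [Fintype.linearIndependent_iff] at hli
  funext i
  exact hli z hz i

lemma per_inj (A : AV) (u : A.H) (hu : A.per u = 0) : u = 0 := by
  have h1 := (finBasis ℚ A.H).sum_repr u
  have h2 : ∑ i, ((((finBasis ℚ A.H).repr u i : ℚ) : ℝ)) • A.per (finBasis ℚ A.H i) = 0 := by
    rw [← hu]
    conv_rhs => rw [← h1]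
    rw [map_sum]
    refine Finset.sum_congr rfl fun i _ => ?_
    exact (map_ratCast_smul A.per ℚ ℝ _ _).symm
  have h3 := per_indep A _ h2
  rw [← h1]
  refine Finset.sum_eq_zero fun i _ => ?_
  have h4 : (((finBasis ℚ A.H).repr u i : ℚ) : ℝ) = 0 := congrFun h3 i
  have h5 : (finBasis ℚ A.H).repr u i = 0 := by exact_mod_cast h4
  rw [h5, zero_smul]

theorem oneA (E : AV) (h1 : finrank ℂ E.T = 1) : IsSimple E := by
  intro U hU
  by_contra hcon
  push Not at hcon
  obtain ⟨h0, ht⟩ := hcon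
  have hd : finrank ℚ E.H = 2 := by rw [E.dim, h1]
  have hlt : finrank ℚ U < 2 := by
    rw [← hd]
    exact Submodule.finrank_lt ht
  obtain ⟨u, huU, hu0⟩ := Submodule.exists_mem_ne_zero_of_ne_bot h0
  have hpos : 0 < finrank ℚ U := by
    have : Nontrivial U := (Submodule.nontrivial_iff_ne_bot).2 h0
    exact Module.finrank_pos
  have hU1 : finrank ℚ U = 1 := by omega
  have hspan : ∀ w ∈ U, ∃ q : ℚ, q • u = w := by
    intro w hw
    have h2 := (finrank_eq_one_iff_of_nonzero' (⟨u, huU⟩ : U) (by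
      intro h; apply hu0; exact congrArg Subtype.val h)).1 hU1 ⟨w, hw⟩
    obtain ⟨q, hq⟩ := h2
    exact ⟨q, congrArg Subtype.val hq⟩
  have hsub : Submodule.span ℝ (E.per '' U) ≤ Submodule.span ℝ {E.per u} := by
    rw [Submodule.span_le]
    rintro _ ⟨w, hw, rfl⟩
    obtain ⟨q, rfl⟩ := hspan w hw
    have h3 : E.per (q • u) = ((q : ℚ) : ℝ) • E.per u := map_ratCast_smul E.per ℚ ℝ _ _
    rw [h3]
    exact Submodule.smul_mem _ _ (Submodule.mem_span_singleton_self _)
  have h3 := hsub (hU (E.per u) (Submodule.subset_span ⟨u, huU, rfl⟩))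
  rw [Submodule.mem_span_singleton] at h3
  obtain ⟨a, ha⟩ := h3
  have h4 : (Complex.I - (a : ℂ)) • E.per u = 0 := by
    rw [sub_smul, ← ha, sub_eq_zero]
    exact (Complex.coe_smul _ _).symm
  rcases smul_eq_zero.1 h4 with h5 | h5
  · have := congrArg Complex.im h5
    simp at this
  · exact hu0 (per_inj E u h5)

end Pool.Agent.Q261.D3E
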