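import Pool.Agent.Q60.D3E.Stm
import Pool.Agent.Q261.D3E.OneA

set_option autoImplicit false

namespace Pool.Agent.Q261.D3E

open Pool.Agent.Q60.D3E (S_one)

theorem one : S_one := fun E h => oneA E h

end Pool.Agent.Q261.D3E
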