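import Mathlib
import Pool.Agent.Q60.D3E.Stm2

/-!
# Project D3E, JOB E1b: the type of an abelian variety with multiplication by a field of maximal degree
-/

set_option autoImplicit false

namespace Pool.Agent.Q261.D3E

open NumberField Pool.Agent.H204R3.CM Module
open Pool.Agent.Q60.D3 (AV IsHom IsSimple IsCM)
open Pool.Agent.Q60.D3E (S_type)

section

variable {A : AV} {K : Type} [Field K] [NumberField K] (r : K →+* Module.End ℚ A.H) (v0 : A.H)

/-- `x ↦ r x v0` -/
noncomputable def mm : K →ₗ[ℚ] A.H where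
  toFun x := r x v0
  map_add' x y := by rw [map_add]; rfl
  map_smul' q x := by rw [map_rat_smul]; rfl

lemma mm_apply (x : K) : mm r v0 x = r x v0 := rfl

lemma mm_mul (x y : K) : mm r v0 (x * y) = r x (mm r v0 y) := by
  rw [mm_apply, mm_apply, map_mul]; rfl

/-- the complex linear extension of `x ↦ per (r x v0)` -/
noncomputable def FF : ((K →+* ℂ) → ℂ) →ₗ[ℂ] A.T :=
  (canonicalEmbedding.latticeBasis K).constr ℂ (fun i => A.per (mm r v0 (integralBasis K i)))

lemma ce_smul (q : ℚ) (x : K) : canonicalEmbedding K (q • x) = (q : ℂ) • canonicalEmbedding K x := by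
  funext φ
  rw [canonicalEmbedding.apply_at, Pi.smul_apply, canonicalEmbedding.apply_at]
  exact map_ratCast_smul φ ℚ ℂ q x

lemma per_smul (q : ℚ) (w : A.H) : A.per (q • w) = (q : ℂ) • A.per w :=
  map_ratCast_smul A.per ℚ ℂ q w

lemma FF_basis (i : Free.ChooseBasisIndex ℤ (𝓞 K)) :
    FF r v0 (canonicalEmbedding K (integralBasis K i)) = A.per (mm r v0 (integralBasis K i)) := by
  unfold FF
  rw [← canonicalEmbedding.latticeBasis_apply, Basis.constr_basis]

/-- two additive maps from `K` compatible with the rational scalars agree if they agree on a basis -/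
lemma ext_K {T : Type} [AddCommGroup T] [Module ℂ T] (f g : K →+ T)
    (hf : ∀ (q : ℚ) (x : K), f (q • x) = (q : ℂ) • f x) (hg : ∀ (q : ℚ) (x : K), g (q • x) = (q : ℂ) • g x)
    (h : ∀ i, f (integralBasis K i) = g (integralBasis K i)) (x : K) : f x = g x := by
  conv_lhs => rw [← (integralBasis K).sum_repr x]
  conv_rhs => rw [← (integralBasis K).sum_repr x]
  rw [map_sum, map_sum]
  refine Finset.sum_congr rfl fun i _ => ?_
  rw [hf, hg, h]

lemma FF_ce (x : K) : FF r v0 (canonicalEmbedding K x) = A.per (mm r v0 x) := by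
  have h := ext_K (T := A.T) ((FF r v0).toAddMonoidHom.comp (canonicalEmbedding K).toAddMonoidHom)
    (A.per.comp (mm r v0).toAddMonoidHom) (fun q x => by
      show FF r v0 (canonicalEmbedding K (q • x)) = _ • FF r v0 (canonicalEmbedding K x)
      rw [ce_smul, map_smul]) (fun q x => by
      show A.per (mm r v0 (q • x)) = _ • A.per (mm r v0 x)
      rw [map_smul, per_smul]) (fun i => FF_basis r v0 i) x
  exact h

lemma FF_mul (x : K) (C : A.T →ₗ[ℂ] A.T) (hC : ∀ w, C (A.per w) = A.per (r x w))
    (c : (K →+* ℂ) → ℂ) : FF r v0 (canonicalEmbedding K x * c) = C (FF r v0 c) := by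
  have h : (FF r v0).comp (LinearMap.mulLeft ℂ (canonicalEmbedding K x)) = C.comp (FF r v0) := by
    refine (canonicalEmbedding.latticeBasis K).ext fun i => ?_
    rw [canonicalEmbedding.latticeBasis_apply, LinearMap.comp_apply, LinearMap.comp_apply,
      LinearMap.mulLeft_apply, ← map_mul, FF_ce, FF_ce, mm_mul, hC]
  exact LinearMap.congr_fun h c

lemma ker_ideal (hr : ∀ x, IsHom A A (r x)) (d c : (K →+* ℂ) → ℂ) (hc : FF r v0 c = 0) :
    FF r v0 (d * c) = 0 := by
  have h : (FF r v0).comp (LinearMap.mulRight ℂ c) = 0 := by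
    refine (canonicalEmbedding.latticeBasis K).ext fun i => ?_
    obtain ⟨C, hC⟩ := hr (integralBasis K i)
    rw [canonicalEmbedding.latticeBasis_apply, LinearMap.comp_apply, LinearMap.mulRight_apply,
      FF_mul r v0 _ C hC, hc, map_zero, LinearMap.zero_apply]
  exact LinearMap.congr_fun h d

lemma FF_surj (hm : Function.Surjective (mm r v0)) : Function.Surjective (FF r v0) := by
  rw [← LinearMap.range_eq_top]
  have h : (⊤ : Submodule ℝ A.T) ≤ (LinearMap.range (FF r v0)).restrictScalars ℝ := by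
    rw [← A.span, Submodule.span_le]
    rintro _ ⟨w, rfl⟩
    obtain ⟨x, rfl⟩ := hm w
    exact ⟨canonicalEmbedding K x, FF_ce r v0 x⟩
  rw [eq_top_iff]
  intro t _
  exact h (Submodule.mem_top : t ∈ (⊤ : Submodule ℝ A.T))

open scoped Classical in
lemma FF_sum (c : (K →+* ℂ) → ℂ) : FF r v0 c = ∑ φ, c φ • FF r v0 (Pi.single φ 1) := by
  conv_lhs => rw [← Finset.univ_sum_single c]
  rw [map_sum]
  refine Finset.sum_congr rfl fun φ _ => ?_
  rw [← map_smul, ← Pi.single_smul, smul_eq_mul, mul_one]

/-- the real independence of the periods -/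
lemma real_indep (hm : Function.Surjective (mm r v0)) (hdim : finrank ℚ K = finrank ℚ A.H)
    (z : Free.ChooseBasisIndex ℤ (𝓞 K) → ℝ)
    (hz : ∑ i, z i • A.per (mm r v0 (integralBasis K i)) = 0) : z = 0 := by
  have hcard : Fintype.card (Free.ChooseBasisIndex ℤ (𝓞 K)) = finrank ℝ A.T := by
    have h1 : finrank ℚ K = Fintype.card (Free.ChooseBasisIndex ℤ (𝓞 K)) :=
      finrank_eq_card_basis (integralBasis K)
    have h2 : finrank ℝ A.T = 2 * finrank ℂ A.T := finrank_real_of_complex A.T
    rw [← h1, h2, hdim, A.dim]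
  have hspan : (⊤ : Submodule ℝ A.T) ≤
      Submodule.span ℝ (Set.range fun i => A.per (mm r v0 (integralBasis K i))) := by
    rw [← A.span, Submodule.span_le]
    rintro _ ⟨w, rfl⟩
    obtain ⟨x, rfl⟩ := hm w
    rw [← (integralBasis K).sum_repr x, map_sum, map_sum]
    refine Submodule.sum_mem _ fun i _ => ?_
    rw [map_smul]
    have h3 : A.per ((integralBasis K).repr x i • mm r v0 (integralBasis K i)) =
        (((integralBasis K).repr x i : ℚ) : ℝ) • A.per (mm r v0 (integralBasis K i)) :=
      map_ratCast_smul A.per ℚ ℝ _ _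
    rw [h3]
    exact Submodule.smul_mem _ _ (Submodule.subset_span ⟨i, rfl⟩)
  have hli := linearIndependent_of_top_le_span_of_card_eq_finrank hspan hcard
  rw [Fintype.linearIndependent_iff] at hli
  funext i
  exact hli z hz i

/-- the kernel contains no nonzero element which is symmetric under conjugation -/
lemma ker_real (hm : Function.Surjective (mm r v0)) (hdim : finrank ℚ K = finrank ℚ A.H)
    (c : (K →+* ℂ) → ℂ) (hc : ∀ φ, c (ComplexEmbedding.conjugate φ) = starRingEnd ℂ (c φ))
    (h0 : FF r v0 c = 0) : c = 0 := by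
  set b := canonicalEmbedding.latticeBasis K with hb
  have h1 : ∑ i, b.repr c i • b i = c := b.sum_repr c
  have h2 : ∑ i, starRingEnd ℂ (b.repr c i) • b i = c := by
    funext φ
    have h3 := congrFun h1 (ComplexEmbedding.conjugate φ)
    rw [hc, Finset.sum_apply] at h3
    have h4 := congrArg (starRingEnd ℂ) h3
    rw [Complex.conj_conj, map_sum] at h4
    rw [← h4, Finset.sum_apply]
    refine Finset.sum_congr rfl fun i _ => ?_
    rw [Pi.smul_apply, Pi.smul_apply, smul_eq_mul, smul_eq_mul, map_mul, hb,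
      canonicalEmbedding.latticeBasis_apply, canonicalEmbedding.apply_at, canonicalEmbedding.apply_at,
      ComplexEmbedding.conjugate_coe_eq, Complex.conj_conj]
  have h3 : ∀ i, starRingEnd ℂ (b.repr c i) = b.repr c i := by
    intro i
    have h4 : b.repr (∑ i, starRingEnd ℂ (b.repr c i) • b i) i = starRingEnd ℂ (b.repr c i) := by
      rw [b.repr_sum_self]
    rw [h2] at h4
    exact h4.symm
  have h4 : ∀ i, b.repr c i = (((b.repr c i).re : ℝ) : ℂ) := fun i => (Complex.conj_eq_iff_re.1 (h3 i)).symm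
  have h5 : ∑ i, (b.repr c i).re • A.per (mm r v0 (integralBasis K i)) = 0 := by
    rw [← h0]
    conv_rhs => rw [← h1]
    rw [map_sum]
    refine Finset.sum_congr rfl fun i _ => ?_
    rw [map_smul, hb, canonicalEmbedding.latticeBasis_apply, FF_basis, ← hb]
    conv_rhs => rw [h4 i]
    exact (Complex.coe_smul _ _).symm
  have h6 := real_indep r v0 hm hdim _ h5
  rw [← h1]
  refine Finset.sum_eq_zero fun i _ => ?_
  have h7 : (b.repr c i).re = 0 := congrFun h6 i
  rw [h4 i, h7, Complex.ofReal_zero, zero_smul]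

end

open scoped Classical in
theorem type' : S_type := by
  intro A K _ _ r hr hdim
  -- the vector
  have hn : 0 < finrank ℚ A.H := by rw [← hdim]; exact finrank_pos
  obtain ⟨v0, hv0⟩ : ∃ v : A.H, v ≠ 0 := by
    have := Module.nontrivial_of_finrank_pos hn
    exact exists_ne 0
  have hinj : Function.Injective (mm r v0) := by
    rw [injective_iff_map_eq_zero]
    intro x hx
    by_contra hne
    apply hv0
    have h1 : r x⁻¹ (mm r v0 x) = v0 := by
      rw [← mm_mul, inv_mul_cancel₀ hne, mm_apply, map_one]; rfl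
    rw [← h1, hx, map_zero]
  have hm : Function.Surjective (mm r v0) :=
    (LinearMap.injective_iff_surjective_of_finrank_eq_finrank hdim).1 hinj
  let e : A.H ≃ₗ[ℚ] K := (LinearEquiv.ofBijective (mm r v0) ⟨hinj, hm⟩).symm
  have he : ∀ w, mm r v0 (e w) = w := fun w => (LinearEquiv.ofBijective (mm r v0) ⟨hinj, hm⟩).apply_symm_apply w
  have he' : ∀ x, e (mm r v0 x) = x := fun x => (LinearEquiv.ofBijective (mm r v0) ⟨hinj, hm⟩).symm_apply_apply x
  -- the type
  set t : (K →+* ℂ) → A.T := fun φ => FF r v0 (Pi.single φ 1) with ht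
  let Φ : Set (K →+* ℂ) := {φ | t φ ≠ 0}
  let ex : (Φ → ℂ) →ₗ[ℂ] ((K →+* ℂ) → ℂ) :=
    { toFun := fun g φ => if h : φ ∈ Φ then g ⟨φ, h⟩ else 0
      map_add' := by
        intro a b; funext φ
        by_cases h : φ ∈ Φ
        · simp only [dif_pos h, Pi.add_apply]
        · simp only [dif_neg h, Pi.add_apply, add_zero]
      map_smul' := by
        intro a b; funext φ
        by_cases h : φ ∈ Φ
        · simp only [dif_pos h, Pi.smul_apply, RingHom.id_apply]
        · simp only [dif_neg h, Pi.smul_apply, RingHom.id_apply, smul_zero] }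
  let G : (Φ → ℂ) →ₗ[ℂ] A.T := (FF r v0).comp ex
  have hG : ∀ g : Φ → ℂ, G g = FF r v0 (fun φ => if h : φ ∈ Φ then g ⟨φ, h⟩ else 0) := fun g => rfl
  have hcut : ∀ c : (K →+* ℂ) → ℂ, G (fun φ => c φ) = FF r v0 c := by
    intro c
    rw [hG, FF_sum, FF_sum r v0 c]
    refine Finset.sum_congr rfl fun φ _ => ?_
    by_cases h : φ ∈ Φ
    · rw [dif_pos h]
    · rw [dif_neg h]
      have : FF r v0 (Pi.single φ 1) = 0 := not_not.1 h
      rw [this, smul_zero, smul_zero]
  have hGi : Function.Injective G := by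
    rw [injective_iff_map_eq_zero]
    intro g hg
    funext φ
    rw [hG] at hg
    have h1 := ker_ideal r v0 hr (Pi.single φ.1 1) _ hg
    rw [FF_sum, Finset.sum_eq_single φ.1] at h1
    · rw [Pi.mul_apply, Pi.single_eq_same, one_mul, dif_pos φ.2] at h1
      exact (smul_eq_zero.1 h1).resolve_right φ.2
    · intro ψ _ hψ
      rw [Pi.mul_apply, Pi.single_eq_of_ne hψ, zero_mul, zero_smul]
    · intro h; exact absurd (Finset.mem_univ _) h
  have hGs : Function.Surjective G := by
    intro u
    obtain ⟨c, hc⟩ := FF_surj r v0 hm u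
    exact ⟨fun φ => c φ, by rw [hcut, hc]⟩
  let C : A.T ≃ₗ[ℂ] (Φ → ℂ) := (LinearEquiv.ofBijective G ⟨hGi, hGs⟩).symm
  have hC : ∀ g, C (G g) = g := fun g => (LinearEquiv.ofBijective G ⟨hGi, hGs⟩).symm_apply_apply g
  -- the cardinality
  have hcard : Fintype.card (K →+* ℂ) = 2 * Fintype.card Φ := by
    have h1 : Fintype.card (K →+* ℂ) = finrank ℚ K := Embeddings.card K ℂ
    have h2 : finrank ℂ A.T = Fintype.card Φ := by
      rw [C.finrank_eq, finrank_fintype_fun_eq_card]
    rw [h1, hdim, A.dim, h2]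
  -- at least one of a pair
  have hone : ∀ φ : K →+* ℂ, φ ∈ Φ ∨ ComplexEmbedding.conjugate φ ∈ Φ := by
    intro φ
    by_contra hcon
    push Not at hcon
    obtain ⟨h1, h2⟩ := hcon
    have h1' : FF r v0 (Pi.single φ 1) = 0 := not_not.1 h1
    have h2' : FF r v0 (Pi.single (ComplexEmbedding.conjugate φ) 1) = 0 := not_not.1 h2
    have hcc : ∀ ψ : K →+* ℂ, ComplexEmbedding.conjugate (ComplexEmbedding.conjugate ψ) = ψ :=
      fun ψ => star_star ψ
    have h3 := ker_real r v0 hm hdim (Pi.single φ 1 + Pi.single (ComplexEmbedding.conjugate φ) 1) (by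
      intro ψ
      simp only [Pi.add_apply, Pi.single_apply, map_add]
      have e1 : (ComplexEmbedding.conjugate ψ = φ) ↔ (ψ = ComplexEmbedding.conjugate φ) :=
        ⟨fun h => by rw [← h, hcc], fun h => by rw [h, hcc]⟩
      have e2 : (ComplexEmbedding.conjugate ψ = ComplexEmbedding.conjugate φ) ↔ (ψ = φ) :=
        ⟨fun h => by rw [← hcc ψ, h, hcc], fun h => by rw [h]⟩
      simp only [e1, e2]
      have h4 : ∀ p : Prop, starRingEnd ℂ (if p then (1 : ℂ) else 0) = if p then 1 else 0 := by
        intro p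
        by_cases hp : p
        · rw [if_pos hp, map_one]
        · rw [if_neg hp, map_zero]
      rw [h4, h4, add_comm]) (by rw [map_add, h1', h2', add_zero])
    have h4 := congrFun h3 φ
    rw [Pi.add_apply, Pi.single_eq_same, Pi.zero_apply, Pi.single_apply] at h4
    by_cases h5 : φ = ComplexEmbedding.conjugate φ
    · rw [if_pos h5] at h4; norm_num at h4
    · rw [if_neg h5] at h4; norm_num at h4
  -- exactly one
  have htwo : ∀ φ : K →+* ℂ, ¬ (φ ∈ Φ ∧ ComplexEmbedding.conjugate φ ∈ Φ) := by
    let S : Finset (K →+* ℂ) := Finset.univ.filter fun φ => φ ∈ Φ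
    let S' : Finset (K →+* ℂ) := Finset.univ.filter fun φ => ComplexEmbedding.conjugate φ ∈ Φ
    have hS : S.card = Fintype.card Φ := by
      rw [Fintype.card_subtype]
    have hS' : S'.card = Fintype.card Φ := by
      rw [← hS]
      refine Finset.card_bij (fun φ _ => ComplexEmbedding.conjugate φ) ?_ ?_ ?_
      · intro φ hφ
        exact Finset.mem_filter.2 ⟨Finset.mem_univ _, (Finset.mem_filter.1 hφ).2⟩
      · intro φ _ ψ _ h
        have : star (ComplexEmbedding.conjugate φ) = star (ComplexEmbedding.conjugate ψ) := congrArg star h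
        exact (star_star φ).symm.trans (this.trans (star_star ψ))
      · intro φ hφ
        refine ⟨ComplexEmbedding.conjugate φ, Finset.mem_filter.2 ⟨Finset.mem_univ _, ?_⟩, star_star φ⟩
        have h1 : ComplexEmbedding.conjugate (ComplexEmbedding.conjugate φ) = φ := star_star φ
        rw [h1]
        exact (Finset.mem_filter.1 hφ).2
    have hU : S ∪ S' = Finset.univ := by
      rw [Finset.eq_univ_iff_forall]
      intro φ
      rw [Finset.mem_union, Finset.mem_filter, Finset.mem_filter]
      rcases hone φ with h | h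
      · exact Or.inl ⟨Finset.mem_univ _, h⟩
      · exact Or.inr ⟨Finset.mem_univ _, h⟩
    have h1 := Finset.card_union_add_card_inter S S'
    rw [hU, Finset.card_univ, hS, hS'] at h1
    have h2 : (S ∩ S').card = 0 := by omega
    rw [Finset.card_eq_zero] at h2
    intro φ hφ
    have h3 : φ ∈ S ∩ S' := Finset.mem_inter.2
      ⟨Finset.mem_filter.2 ⟨Finset.mem_univ _, hφ.1⟩, Finset.mem_filter.2 ⟨Finset.mem_univ _, hφ.2⟩⟩
    rw [h2] at h3
    exact absurd h3 (Finset.notMem_empty _)
  refine ⟨Φ, e, C, ?_, ?_, ?_⟩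
  · intro φ
    constructor
    · intro h1 h2; exact htwo φ ⟨h1, h2⟩
    · intro h1; exact (hone φ).resolve_right h1
  · intro x w
    have h1 : r x w = mm r v0 (x * e w) := by rw [mm_mul, he]
    rw [h1, he']
  · intro w φ
    have h1 : A.per w = G (fun φ => canonicalEmbedding K (e w) φ) := by
      rw [hcut, FF_ce, he]
    rw [h1, hC]
    rfl

end Pool.Agent.Q261.D3E
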